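import Pool.Agent.Y745.LD.DefsA
import Pool.Agent.Y248.SW.KER

set_option autoImplicit false

/-!
LD-KER2 (helper745, MP_6bc78b_nt): window functions with a Lipschitz condition. Small change of helper248's
construction (Y248/SW/KER): the kernel is Lipschitz since it is an average of a bounded function.
-/

namespace Pool.Agent.Y786.LD

open Filter Topology MeasureTheory Complex Set
open Pool.Agent.Y745.SW (VF Wf P_KER)
open Pool.Agent.Y745.LD (P_KER2)
open Pool.Agent.Y248.SW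
open scoped FourierTransform

noncomputable section

theorem av_lip {r α D : ℝ} (hα : 0 < α) {β : ℝ → ℝ} (h : Gd r β) (hD : ∀ ξ, |β ξ| ≤ D) (ξ ξ' : ℝ) :
    |av α β ξ - av α β ξ'| ≤ D / α * |ξ - ξ'| := by
  have h0 : ∀ a b, IntervalIntegrable β volume a b := fun a b => h.int.intervalIntegrable
  have hb : ∀ a b, |∫ η in a..b, β η| ≤ D * |b - a| := by
    intro a b
    rw [← Real.norm_eq_abs]
    exact intervalIntegral.norm_integral_le_of_norm_le_const fun x _ => hD x
  have h1 : av α β ξ - av α β ξ' = (1 / (2 * α)) *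
      ((∫ η in (ξ - α)..(ξ' - α), β η) - ∫ η in (ξ + α)..(ξ' + α), β η) := by
    rw [av, av, ← mul_sub, intervalIntegral.integral_interval_sub_interval_comm (h0 _ _) (h0 _ _) (h0 _ _)]
  have e1 := hb (ξ - α) (ξ' - α)
  have e2 := hb (ξ + α) (ξ' + α)
  have e3 : ξ' - α - (ξ - α) = -(ξ - ξ') := by ring
  have e4 : ξ' + α - (ξ + α) = -(ξ - ξ') := by ring
  rw [e3, abs_neg] at e1
  rw [e4, abs_neg] at e2
  rw [h1, abs_mul, abs_of_pos (by positivity : 0 < 1 / (2 * α))]
  have h2 : |(∫ η in (ξ - α)..(ξ' - α), β η) - ∫ η in (ξ + α)..(ξ' + α), β η| ≤ 2 * (D * |ξ - ξ'|) := by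
    refine (abs_sub _ _).trans ?_
    linarith
  calc 1 / (2 * α) * |(∫ η in (ξ - α)..(ξ' - α), β η) - ∫ η in (ξ + α)..(ξ' + α), β η|
      ≤ 1 / (2 * α) * (2 * (D * |ξ - ξ'|)) := mul_le_mul_of_nonneg_left h2 (by positivity)
    _ = D / α * |ξ - ξ'| := by field_simp

theorem av_bd {α D : ℝ} (hα : 0 < α) {β : ℝ → ℝ} (hD : ∀ ξ, |β ξ| ≤ D) (ξ : ℝ) : |av α β ξ| ≤ D := by
  have h1 : |∫ η in (ξ - α)..(ξ + α), β η| ≤ D * |ξ + α - (ξ - α)| := by
    rw [← Real.norm_eq_abs]
    exact intervalIntegral.norm_integral_le_of_norm_le_const fun x _ => hD x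
  have h2 : |ξ + α - (ξ - α)| = 2 * α := by rw [abs_of_pos (by linarith)]; ring
  rw [h2] at h1
  rw [av, abs_mul, abs_of_pos (by positivity : 0 < 1 / (2 * α))]
  calc 1 / (2 * α) * |∫ η in (ξ - α)..(ξ + α), β η| ≤ 1 / (2 * α) * (D * (2 * α)) :=
        mul_le_mul_of_nonneg_left h1 (by positivity)
    _ = D := by field_simp

theorem bs_bd (α : ℝ) (hα : 0 < α) (n : ℕ) : ∀ ξ, |bs α n ξ| ≤ 1 / (2 * α) := by
  induction n with
  | zero =>
    intro ξ
    show |ub α ξ| ≤ _
    unfold ub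
    by_cases h : ξ ∈ Ioo (-α) α
    · rw [indicator_of_mem h, abs_of_pos (by positivity)]
    · rw [indicator_of_notMem h, abs_zero]
      positivity
  | succ n ih => exact fun ξ => av_bd hα ih ξ

theorem BN_lip {β : ℝ → ℝ} {D K N : ℝ} (hD0 : 0 ≤ D) (hK0 : 0 ≤ K) (hD : ∀ ξ, |β ξ| ≤ D)
    (hK : ∀ ξ ξ', |β ξ - β ξ'| ≤ K * |ξ - ξ'|) (hN : 1 ≤ N) (ξ ξ' : ℝ) :
    |BN β N ξ - BN β N ξ'| ≤ (2 * D + 2 * K) * N ^ 2 * |ξ - ξ'| := by
  have h1' : |N - -N| = 2 * N := by rw [abs_of_nonneg (by linarith)]; ring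
  have h1 : |∫ y in (-N)..N, Real.cos (ξ * y)| ≤ 2 * N := by
    have h2 : ‖∫ y in (-N)..N, Real.cos (ξ * y)‖ ≤ 1 * |N - -N| := by
      apply intervalIntegral.norm_integral_le_of_norm_le_const
      intro y _
      exact Real.abs_cos_le_one _
    rw [Real.norm_eq_abs, one_mul, h1'] at h2
    exact h2
  have h3 : |(∫ y in (-N)..N, Real.cos (ξ * y)) - ∫ y in (-N)..N, Real.cos (ξ' * y)| ≤
      2 * N ^ 2 * |ξ - ξ'| := by
    rw [← intervalIntegral.integral_sub (Continuous.intervalIntegrable (by fun_prop) _ _)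
      (Continuous.intervalIntegrable (by fun_prop) _ _)]
    have h4 : ‖∫ y in (-N)..N, (Real.cos (ξ * y) - Real.cos (ξ' * y))‖ ≤ (|ξ - ξ'| * N) * |N - -N| := by
      apply intervalIntegral.norm_integral_le_of_norm_le_const
      intro y hy
      rw [uIoc_of_le (by linarith)] at hy
      have hy' : |y| ≤ N := abs_le.2 ⟨hy.1.le, hy.2⟩
      have h5 : |Real.cos (ξ * y) - Real.cos (ξ' * y)| ≤ |ξ * y - ξ' * y| := Real.abs_cos_sub_cos_le _ _
      rw [Real.norm_eq_abs]
      refine h5.trans ?_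
      rw [← sub_mul, abs_mul]
      exact mul_le_mul_of_nonneg_left hy' (abs_nonneg _)
    rw [Real.norm_eq_abs, h1'] at h4
    refine h4.trans (le_of_eq ?_)
    ring
  have h6 : BN β N ξ - BN β N ξ' = (β ξ - β ξ') * (∫ y in (-N)..N, Real.cos (ξ * y)) +
      β ξ' * ((∫ y in (-N)..N, Real.cos (ξ * y)) - ∫ y in (-N)..N, Real.cos (ξ' * y)) := by
    rw [BN, BN]; ring
  rw [h6]
  refine (abs_add_le _ _).trans ?_
  rw [abs_mul, abs_mul]
  have hx := abs_nonneg (ξ - ξ')
  have h7 : |β ξ - β ξ'| * |∫ y in (-N)..N, Real.cos (ξ * y)| ≤ (K * |ξ - ξ'|) * (2 * N) :=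
    mul_le_mul (hK ξ ξ') h1 (abs_nonneg _) (by positivity)
  have h8 : |β ξ'| * |(∫ y in (-N)..N, Real.cos (ξ * y)) - ∫ y in (-N)..N, Real.cos (ξ' * y)| ≤
      D * (2 * N ^ 2 * |ξ - ξ'|) := mul_le_mul (hD ξ') h3 (abs_nonneg _) hD0
  have h9 : (K * |ξ - ξ'|) * (2 * N) ≤ (K * |ξ - ξ'|) * (2 * N ^ 2) := by
    apply mul_le_mul_of_nonneg_left _ (by positivity)
    nlinarith
  nlinarith

theorem exists_ker2 (j : ℕ) : ∃ (C0 : ℝ) (β : ℝ → ℝ) (D K : ℝ), Ker j C0 β ∧ (∀ ξ, |β ξ| ≤ D) ∧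
    ∀ ξ ξ', |β ξ - β ξ'| ≤ K * |ξ - ξ'| := by
  -- `2 m` factors
  set m : ℕ := j + 2 with hm
  set α : ℝ := 1 / (2 * m) with hα'
  have hm0 : (0 : ℝ) < m := by rw [hm]; positivity
  have hα : 0 < α := by positivity
  set n : ℕ := 2 * m - 1 with hn
  have hn1 : n + 1 = 2 * m := by omega
  obtain ⟨k, hk⟩ : ∃ k, n = k + 1 := ⟨n - 1, by omega⟩
  set β0 : ℝ → ℝ := bs α n with hβ0
  have hgd : Gd 1 β0 := by
    have := bs_gd α hα n
    have h2 : ((n : ℝ) + 1) * α = 1 := by
      have : (n : ℝ) + 1 = 2 * m := by exact_mod_cast hn1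
      rw [this, hα']
      field_simp
    rwa [h2] at this
  have hcont : Continuous β0 := by
    rw [hβ0, hk]
    exact av_cont (bs_gd α hα k)
  have hVF : ∀ z, VF β0 z = FT (ub α) z ^ (2 * m) := by
    intro z
    rw [VF_full β0 hgd.supp, ← hn1, ← bs_FT α hα n z, FT]
  have hre : ∀ x : ℝ, FT (ub α) x = (((FT (ub α) x).re : ℝ) : ℂ) := by
    intro x
    apply Complex.ext
    · simp
    · simp [(ub_gd α hα).im_zero x]
  have hreal : ∀ x : ℝ, VF β0 x = ((((FT (ub α) x).re ^ m) ^ 2 : ℝ) : ℂ) := by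
    intro x
    rw [hVF, hre x]
    push_cast
    rw [← pow_mul, mul_comm]
    simp
  have hdecay : ∀ z : ℂ, ‖VF β0 z‖ ≤ (1 + 1 / α) ^ (2 * m) * Real.exp |z.im| /
      (1 + |z.re|) ^ (j + 2) := by
    intro z
    rw [hVF, norm_pow]
    have h1 := pow_le_pow_left₀ (norm_nonneg _) (ub_decay α hα z) (2 * m)
    rw [mul_pow, div_pow, ← Real.exp_nat_mul] at h1
    have h2 : ((2 * m : ℕ) : ℝ) * (α * |z.im|) = |z.im| := by
      rw [hα']; push_cast; field_simp
    rw [h2] at h1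
    refine h1.trans ?_
    have h3 : (1 + |z.re|) ^ (j + 2) ≤ (1 + |z.re|) ^ (2 * m) :=
      pow_le_pow_right₀ (by linarith [abs_nonneg z.re]) (by omega)
    have h4 : 0 < (1 + |z.re|) ^ (j + 2) := by positivity
    rw [← mul_div_assoc, mul_comm]
    exact div_le_div_of_nonneg_left (by positivity) h4 h3
  -- integrability on the real axis
  have hint : Integrable (fun x : ℝ => VF β0 (x + (0 : ℝ) * I)) := by
    have hG : Integrable (fun x : ℝ => (1 + 1 / α) ^ (2 * m) * (1 + x ^ 2)⁻¹) :=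
      integrable_inv_one_add_sq.const_mul _
    refine hG.mono' ?_ ?_
    · apply Continuous.aestronglyMeasurable
      exact (VF_cont _ hcont).comp (by fun_prop)
    · refine Eventually.of_forall fun x => ?_
      have hx : (x : ℂ) + ((0 : ℝ) : ℂ) * I = (x : ℂ) := by push_cast; ring
      rw [hx]
      refine (hdecay x).trans ?_
      simp only [Complex.ofReal_im, Complex.ofReal_re, abs_zero, Real.exp_zero, mul_one]
      rw [div_eq_mul_inv]
      apply mul_le_mul_of_nonneg_left _ (by positivity)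
      apply inv_anti₀ (by positivity)
      have := pow_bound j (le_refl 0) (abs_nonneg x)
      simpa using this
  have htot := (total_gen β0 hcont hgd.supp 0 hint).2
  have hpos : 0 < β0 0 := by
    have h1 : ∀ x : ℝ, VF β0 (x + (0 : ℝ) * I) = ((((FT (ub α) x).re ^ m) ^ 2 : ℝ) : ℂ) := by
      intro x
      have hx : (x : ℂ) + ((0 : ℝ) : ℂ) * I = (x : ℂ) := by push_cast; ring
      rw [hx, hreal]
    simp_rw [h1] at htot hint
    rw [integral_complex_ofReal] at htot
    have h2 : Continuous (fun x : ℝ => ((FT (ub α) x).re ^ m) ^ 2) := by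
      have h3 : (fun x : ℝ => ((FT (ub α) x).re ^ m) ^ 2) = fun x : ℝ => (VF β0 x).re := by
        funext x
        rw [hreal, Complex.ofReal_re]
      rw [h3]
      exact Complex.continuous_re.comp ((VF_cont _ hcont).comp continuous_ofReal)
    have h3 : Integrable (fun x : ℝ => ((FT (ub α) x).re ^ m) ^ 2) := by
      have := hint.re
      refine this.congr (Eventually.of_forall fun x => ?_)
      exact Complex.ofReal_re _
    have h4 : 0 < ∫ x : ℝ, ((FT (ub α) x).re ^ m) ^ 2 := by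
      refine integral_pos_of_integrable_nonneg_nonzero (x := 0) h2 h3 (fun x => by positivity) ?_
      have h5 : FT (ub α) ((0 : ℝ) : ℂ) = 1 := by
        rw [ub_FT α hα]
        simp only [Complex.ofReal_zero, mul_zero, zero_mul, Complex.exp_zero,
          intervalIntegral.integral_const]
        rw [Complex.real_smul]
        have : (α : ℂ) ≠ 0 := by exact_mod_cast hα.ne'
        push_cast
        field_simp
        ring
      rw [h5]
      simp
    have h5 : (∫ x : ℝ, ((FT (ub α) x).re ^ m) ^ 2) = 2 * Real.pi * β0 0 := by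
      exact_mod_cast htot
    rw [h5] at h4
    exact (mul_pos_iff_of_pos_left Real.two_pi_pos).1 h4
  -- normalisation
  set c : ℝ := 1 / (2 * Real.pi * β0 0) with hc
  have hpi := Real.pi_pos
  have hc0 : 0 < c := by positivity
  have hVFc : ∀ z, VF (fun ξ => c * β0 ξ) z = c * VF β0 z := by
    intro z
    unfold VF
    rw [← intervalIntegral.integral_const_mul]
    refine intervalIntegral.integral_congr fun ξ _ => ?_
    simp only
    push_cast
    ring
  have hbd : ∃ D, ∀ ξ, |β0 ξ| ≤ D := by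
    obtain ⟨D, hD⟩ := (isCompact_Icc (a := (-1 : ℝ)) (b := 1)).exists_bound_of_continuousOn
      hcont.continuousOn
    refine ⟨max D 0, fun ξ => ?_⟩
    by_cases h : 1 ≤ |ξ|
    · rw [hgd.supp ξ h]; simp
    · have h' := abs_le.1 (not_le.1 h).le
      exact (hD ξ ⟨h'.1, h'.2⟩).trans (le_max_left _ _)
  obtain ⟨D, hD⟩ := hbd
  refine ⟨c * (1 + 1 / α) ^ (2 * m), fun ξ => c * β0 ξ, c * D, c * (1 / (2 * α) / α), ?_, ?_, ?_⟩
  · refine
      { cont := continuous_const.mul hcont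
        even := fun ξ => by simp only [hgd.even]
        supp := fun ξ hξ => by rw [hgd.supp ξ hξ, mul_zero]
        zero := ?_
        real := fun x => ?_
        decay := fun z => ?_
        C0 := by positivity }
    · show c * β0 0 = 1 / (2 * Real.pi)
      rw [hc]
      field_simp
    · rw [hVFc, hreal, ← Complex.ofReal_mul, Complex.ofReal_im, Complex.ofReal_re]
      exact ⟨rfl, by positivity⟩
    · rw [hVFc, norm_mul, Complex.norm_real, Real.norm_eq_abs, abs_of_pos hc0]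
      calc c * ‖VF β0 z‖ ≤ c * ((1 + 1 / α) ^ (2 * m) * Real.exp |z.im| /
            (1 + |z.re|) ^ (j + 2)) := mul_le_mul_of_nonneg_left (hdecay z) hc0.le
        _ = _ := by ring
  · intro ξ
    rw [abs_mul, abs_of_pos hc0]
    exact mul_le_mul_of_nonneg_left (hD ξ) hc0.le
  · intro ξ ξ'
    have h1 : |β0 ξ - β0 ξ'| ≤ 1 / (2 * α) / α * |ξ - ξ'| := by
      rw [hβ0, hk]
      exact av_lip hα (bs_gd α hα k) (bs_bd α hα k) ξ ξ'
    have h2 : c * β0 ξ - c * β0 ξ' = c * (β0 ξ - β0 ξ') := by ring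
    rw [h2, abs_mul, abs_of_pos hc0, mul_assoc]
    exact mul_le_mul_of_nonneg_left h1 hc0.le

theorem wf_of_ker2 {j : ℕ} {C0 : ℝ} {β : ℝ → ℝ} (hK : Ker (j + 2) C0 β) (D K : ℝ) (hD : ∀ ξ, |β ξ| ≤ D)
    (hKL : ∀ ξ ξ', |β ξ - β ξ'| ≤ K * |ξ - ξ'|) :
    ∃ C : ℝ, 1 ≤ C ∧ ∀ N : ℝ, 1 ≤ N → ∃ B : ℝ → ℝ, Wf j C N B ∧
      ∀ ξ ξ' : ℝ, |B ξ - B ξ'| ≤ C * N ^ 2 * |ξ - ξ'| := by
  have hD0 : 0 ≤ D := (abs_nonneg _).trans (hD 0)
  have hpi := Real.pi_pos
  have hC := hK.C0
  have hCp : 0 ≤ C0 * Real.pi := by positivity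
  have hK0 : 0 ≤ K := by
    have h1 := (abs_nonneg _).trans (hKL 1 0)
    simpa using h1
  refine ⟨1 + 2 * D + 2 * K + C0 * Real.pi, by linarith, fun N hN => ⟨BN β N, ?_, fun ξ ξ' => ?_⟩⟩
  swap
  · refine (BN_lip hD0 hK0 hD hKL hN ξ ξ').trans ?_
    apply mul_le_mul_of_nonneg_right _ (abs_nonneg _)
    apply mul_le_mul_of_nonneg_right _ (by positivity)
    linarith
  have hN0 : 0 ≤ N := by linarith
  refine
    { cont := BN_cont hK.cont N
      even := BN_even hK.even N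
      bd := ?_
      zero := BN_zero hK.zero N
      sq := hK.sqN hN
      real := hK.realN hN0
      inner := ?_
      outer := ?_ }
  · intro ξ
    have h1 : ‖∫ y in (-N)..N, Real.cos (ξ * y)‖ ≤ 1 * |N - -N| := by
      apply intervalIntegral.norm_integral_le_of_norm_le_const
      intro y _
      exact Real.abs_cos_le_one _
    have h1' : |N - -N| = N - -N := abs_of_nonneg (by linarith)
    rw [Real.norm_eq_abs, one_mul, h1'] at h1
    rw [BN, abs_mul]
    calc |β ξ| * |∫ y in (-N)..N, Real.cos (ξ * y)| ≤ D * (N - -N) :=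
          mul_le_mul (hD ξ) h1 (abs_nonneg _) hD0
      _ ≤ _ := by nlinarith
  · intro z hz
    refine (hK.inner hN0 z hz).trans ?_
    have h1 : 1 ≤ 1 + (N - |z.re|) := by linarith
    have h2 : (1 + (N - |z.re|)) ^ j ≤ (1 + (N - |z.re|)) ^ (j + 2) :=
      pow_le_pow_right₀ h1 (by omega)
    have h3 : 0 < (1 + (N - |z.re|)) ^ j := by positivity
    have h4 := Real.exp_pos |z.im|
    apply div_le_div₀ (by positivity) _ h3 h2
    apply mul_le_mul_of_nonneg_right _ h4.le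
    linarith
  · intro z hz
    refine (hK.outer hN0 z hz).trans ?_
    have h1 : 1 ≤ 1 + (|z.re| - N) := by linarith
    have h2 : (1 + (|z.re| - N)) ^ j ≤ (1 + (|z.re| - N)) ^ (j + 2) :=
      pow_le_pow_right₀ h1 (by omega)
    have h3 : 0 < (1 + (|z.re| - N)) ^ j := by positivity
    have h4 := Real.exp_pos |z.im|
    apply div_le_div₀ (by positivity) _ h3 h2
    apply mul_le_mul_of_nonneg_right _ h4.le
    linarith

theorem t_KER2 : P_KER2 := by
  intro j
  obtain ⟨C0, β, D, K, hK, hD, hKL⟩ := exists_ker2 (j + 2)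
  exact wf_of_ker2 hK D K hD hKL

end

end Pool.Agent.Y786.LD
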